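import Pool.Agent.V11304.CT.Pad

/-!
# The two congruences
-/

set_option autoImplicit false

namespace Pool.Agent.V11304.CT

open Finset Pool.Agent.V11304.PI

variable {p : ℕ} [hp : Fact p.Prime]

/-- the residue of `u_p` -/
lemma ok_up (h3 : 3 < p) : Ok p (w (-1 / 3) p) (2 / 9) := by
  rw [w_third]
  have c2 : (((2 * p).choose p : ℕ) : ZMod p) = 2 := by
    have := Choose.choose_modEq_choose_mod_mul_choose_div_nat (n := 2 * p) (k := p) (p := p)
    have h := (ZMod.natCast_eq_natCast_iff _ _ _).mpr this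
    rw [h]
    simp [hp.out.pos]
  have c3 : (((3 * p).choose p : ℕ) : ZMod p) = 3 := by
    have := Choose.choose_modEq_choose_mod_mul_choose_div_nat (n := 3 * p) (k := p) (p := p)
    have h := (ZMod.natCast_eq_natCast_iff _ _ _).mpr this
    rw [h]
    simp [hp.out.pos]
  have n3 : (3 : ZMod p) ≠ 0 := by
    have := natCast_ne (p := p) (n := 3) (by norm_num) h3
    exact_mod_cast this
  have n27 : ((27 : ℕ) : ZMod p) ≠ 0 := by
    have : ((27 : ℕ) : ZMod p) = 3 ^ 3 := by norm_num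
    rw [this]; exact pow_ne_zero _ n3
  have o1 := ((ok_nat (p := p) ((2 * p).choose p)).mul (ok_nat ((3 * p).choose p))).div
    ((ok_nat (p := p) 27).pow p) (pow_ne_zero _ n27)
  have e : (2 / 9 : ZMod p) = (((2 * p).choose p : ℕ) : ZMod p) * (((3 * p).choose p : ℕ) : ZMod p) /
      ((27 : ℕ) : ZMod p) ^ p := by
    rw [c2, c3, ZMod.pow_card]
    have n9 : (9 : ZMod p) ≠ 0 := by
      have : (9 : ZMod p) = 3 ^ 2 := by norm_num
      rw [this]; exact pow_ne_zero _ n3
    rw [div_eq_div_iff n9 n27]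
    norm_num
  rw [e]
  exact_mod_cast o1

lemma F_third (h3 : 3 < p) {n : ℕ} {t : ℚ} (ht : In p t) (hn : n < p) (ha : (-1 / 3 : ℚ) = p * t + n) :
    Dv p 2 (F (-1 / 3) p - (1 + 2 * t)) := by
  have hodd : Odd p := hp.out.odd_of_ne_two (by omega)
  obtain ⟨h, hh⟩ := hodd
  have h1 := F_base hh (by omega) ht
  have h2 := F_sum (p * t) n (p - 1)
  rw [show p - 1 + 1 = p by omega, ← ha] at h2
  rw [h2]
  have h4 : Dv p 2 (∑ j ∈ range n, 2 * P (p * t + (j + 1 : ℕ)) (p - 1)) := by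
    apply Dv.sum
    intro j hj
    rw [mem_range] at hj
    exact (P_two ⟨h, hh⟩ ht (j + 1) (by omega) (by omega)).in_mul (in_nat 2)
  have := h1.add h4
  have e : ∀ A B C : ℚ, A + B - C = A - C + B := by intro A B C; ring
  rw [e]
  exact this

/-- first congruence -/
theorem first (h3 : 3 < p) (ε : ℤ) (hε : (p % 3 = 1 ∧ ε = 1) ∨ (p % 3 = 2 ∧ ε = -1)) :
    Dv p 2 (∑ k ∈ range p, w (-1 / 3) k / (((k : ℚ) + 1) * (2 * k + 1)) - (2 * ε - p)) := by
  have i3 : In p ((((3 : ℕ)) : ℚ)⁻¹) := in_inv (by norm_num) h3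
  have hF : Dv p 2 (F (-1 / 3) p - (ε : ℚ) / 3) := by
    rcases hε with ⟨hm, rfl⟩ | ⟨hm, rfl⟩
    · obtain ⟨n, hn⟩ : ∃ n, p = 3 * n + 1 := ⟨p / 3, by omega⟩
      have hpq : (p : ℚ) = 3 * n + 1 := by exact_mod_cast hn
      have ht : In p (-1 / 3 : ℚ) := by
        have := i3.neg
        push_cast at this
        have e : (-1 / 3 : ℚ) = -(3 : ℚ)⁻¹ := by norm_num
        rw [e]; exact this
      have := F_third h3 (n := n) ht (by omega) (by rw [hpq]; ring)
      have e : (1 + 2 * (-1 / 3) : ℚ) = ((1 : ℤ) : ℚ) / 3 := by norm_num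
      rw [e] at this
      exact this
    · obtain ⟨n, hn⟩ : ∃ n, p = 3 * n + 2 := ⟨p / 3, by omega⟩
      have hpq : (p : ℚ) = 3 * n + 2 := by exact_mod_cast hn
      have ht : In p (-2 / 3 : ℚ) := by
        have := ((in_nat (p := p) 2).mul i3).neg
        push_cast at this
        have e : (-2 / 3 : ℚ) = -(2 * (3 : ℚ)⁻¹) := by norm_num
        rw [e]; exact this
      have := F_third h3 (n := 2 * n + 1) ht (by omega) (by rw [hpq]; push_cast; ring)
      have e : (1 + 2 * (-2 / 3) : ℚ) = ((-1 : ℤ) : ℚ) / 3 := by norm_num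
      rw [e] at this
      exact this
  have n3 : (3 : ZMod p) ≠ 0 := by
    have := natCast_ne (p := p) (n := 3) (by norm_num) h3
    exact_mod_cast this
  have n2 : (2 : ZMod p) ≠ 0 := by
    have := natCast_ne (p := p) (n := 2) (by norm_num) (by omega)
    exact_mod_cast this
  have n9 : (9 : ZMod p) ≠ 0 := by
    have : (9 : ZMod p) = 3 ^ 2 := by norm_num
    rw [this]; exact pow_ne_zero _ n3
  have hu : Dv p (1 + 1) (p * (1 - 9 / 2 * w (-1 / 3) p)) := by
    apply Dv.mul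
    · simpa using dv_p 1
    · apply Ok.dv
      have o := (ok_one (p := p)).sub ((((ok_nat (p := p) 9).div (ok_nat 2) (by exact_mod_cast n2))).mul (ok_up h3))
      have e : (1 - ((9 : ℕ) : ZMod p) / ((2 : ℕ) : ZMod p) * (2 / 9)) = 0 := by
        push_cast
        field_simp
        ring
      rw [e] at o
      push_cast at o
      exact o
  have s1 := sum_one (-1 / 3) p
  have split : ∑ k ∈ range p, w (-1 / 3) k / (((k : ℚ) + 1) * (2 * k + 1)) =
      2 * ∑ k ∈ range p, w (-1 / 3) k / (2 * (k : ℚ) + 1) - ∑ k ∈ range p, w (-1 / 3) k / ((k : ℚ) + 1) := by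
    rw [Finset.mul_sum, ← Finset.sum_sub_distrib]
    refine Finset.sum_congr rfl fun k _ => ?_
    have h1 : (k : ℚ) + 1 ≠ 0 := by positivity
    have h2 : 2 * (k : ℚ) + 1 ≠ 0 := by positivity
    field_simp
    ring
  have hF2 : F (-1 / 3) p = 1 / 3 * ∑ k ∈ range p, w (-1 / 3) k / (2 * (k : ℚ) + 1) := by
    unfold F; ring
  have := (hF.in_mul (in_nat 6)).add hu
  have e : ∑ k ∈ range p, w (-1 / 3) k / (((k : ℚ) + 1) * (2 * k + 1)) - (2 * ε - p) =
      ((6 : ℕ) : ℚ) * (F (-1 / 3) p - (ε : ℚ) / 3) + p * (1 - 9 / 2 * w (-1 / 3) p) := by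
    rw [split, hF2]
    push_cast
    linear_combination (9 / 2) * s1
  rw [e]
  exact this

/-- second congruence -/
theorem second (h3 : 3 < p) :
    Dv p 1 (∑ k ∈ range p, 2 * w (-1 / 3) k / ((k : ℚ) + 1) ^ 2 + 7) := by
  have n3 : (3 : ZMod p) ≠ 0 := by
    have := natCast_ne (p := p) (n := 3) (by norm_num) h3
    exact_mod_cast this
  have n2 : (2 : ZMod p) ≠ 0 := by
    have := natCast_ne (p := p) (n := 2) (by norm_num) (by omega)
    exact_mod_cast this
  have n9 : (9 : ZMod p) ≠ 0 := by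
    have : (9 : ZMod p) = 3 ^ 2 := by norm_num
    rw [this]; exact pow_ne_zero _ n3
  have s2 := sum_two (-1 / 3) p
  have e0 : ∑ k ∈ range p, 2 * w (-1 / 3) k / ((k : ℚ) + 1) ^ 2 =
      2 * ∑ k ∈ range p, w (-1 / 3) k / ((k : ℚ) + 1) ^ 2 := by
    rw [Finset.mul_sum]
    exact Finset.sum_congr rfl fun k _ => by ring
  have e : ∑ k ∈ range p, 2 * w (-1 / 3) k / ((k : ℚ) + 1) ^ 2 + 7 =
      9 * w (-1 / 3) p - 2 + 81 / 2 * w (-1 / 3) p * p := by
    rw [e0]
    linear_combination (81 / 2) * s2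
  rw [e]
  apply Ok.dv
  have hu := ok_up h3
  have o := (((ok_nat (p := p) 9).mul hu).sub (ok_nat 2)).add
    ((((ok_nat (p := p) 81).div (ok_nat 2) (by exact_mod_cast n2)).mul hu).mul (ok_p))
  have e2 : (((9 : ℕ) : ZMod p) * (2 / 9) - ((2 : ℕ) : ZMod p) + ((81 : ℕ) : ZMod p) / ((2 : ℕ) : ZMod p) * (2 / 9) * 0) = 0 := by
    push_cast
    field_simp
    ring
  rw [e2] at o
  push_cast at o
  exact o

end Pool.Agent.V11304.CT
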