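import Pool.Agent.V11304.CT.Tel

/-!
# The `p`-adic part
-/

set_option autoImplicit false

namespace Pool.Agent.V11304.CT

open Finset Pool.Agent.V11304.PI

variable {p : ℕ} [hp : Fact p.Prime]

lemma in_inv {n : ℕ} (h0 : 0 < n) (h1 : n < p) : In p ((n : ℚ)⁻¹) := in_inv_nat (natCast_ne h0 h1)

/-- `P(pt,k) = 1 + O(p²)` -/
lemma P_one {t : ℚ} (ht : In p t) (k : ℕ) (hk : k < p) : Dv p 2 (P (p * t) k - 1) := by
  induction k with
  | zero => simpa [P] using dv_zero 2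
  | succ k ih =>
    have h := ih (by omega)
    have hi : In p ((((k + 1 : ℕ)) : ℚ)⁻¹) := in_inv (by omega) hk
    rw [P_succ]
    have h1 : In p (P (p * t) k) := by
      have := (h.mono (show 0 ≤ 2 by omega))
      obtain ⟨u, hu, hx⟩ := this
      have e : P (p * t) k = 1 + u := by linear_combination hx
      rw [e]; exact in_one.add hu
    have h2 : Dv p 2 (P (p * t) k * (((p : ℚ) * t) ^ 2 / ((k : ℚ) + 1) ^ 2)) := by
      refine ⟨P (p * t) k * (t ^ 2 * ((((k + 1 : ℕ)) : ℚ)⁻¹) ^ 2), h1.mul ((ht.pow 2).mul (hi.pow 2)), ?_⟩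
      push_cast
      have : (k : ℚ) + 1 ≠ 0 := by positivity
      field_simp
    have := h.sub h2
    have e : P (p * t) k * (1 - (↑p * t) ^ 2 / ((k : ℚ) + 1) ^ 2) - 1 =
      P (p * t) k - 1 - P (p * t) k * (((p : ℚ) * t) ^ 2 / ((k : ℚ) + 1) ^ 2) := by ring
    rw [e]; exact this

/-- `P(pt+j,p-1) = O(p²)` for `1 ≤ j ≤ p-1` -/
lemma P_two (hodd : Odd p) {t : ℚ} (ht : In p t) (j : ℕ) (h0 : 1 ≤ j) (hj : j < p) :
    Dv p 2 (P (p * t + j) (p - 1)) := by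
  unfold P
  have m1 : j - 1 ∈ range (p - 1) := by rw [mem_range]; omega
  have m2 : p - j - 1 ∈ (range (p - 1)).erase (j - 1) := by
    rw [mem_erase, mem_range]
    obtain ⟨q, hq⟩ := hodd
    omega
  rw [← mul_prod_erase _ _ m1, ← mul_prod_erase _ _ m2]
  have c1 : (((j - 1 : ℕ)) : ℚ) + 1 = j := by
    rw [Nat.cast_sub h0]; push_cast; ring
  have c2 : (((p - j - 1 : ℕ)) : ℚ) + 1 = p - j := by
    rw [Nat.cast_sub (by omega), Nat.cast_sub (by omega)]; push_cast; ring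
  have hjne : (j : ℚ) ≠ 0 := by
    have : 0 < j := h0
    positivity
  have hpj : (p : ℚ) - j ≠ 0 := by
    have : (j : ℚ) < p := by exact_mod_cast hj
    linarith
  have i1 : In p ((j : ℚ)⁻¹) := in_inv h0 hj
  have i2 : In p (((p : ℚ) - j)⁻¹) := by
    have := in_inv (p := p) (n := p - j) (by omega) (by omega)
    rw [Nat.cast_sub (by omega)] at this
    exact this
  have d1 : Dv p 1 (1 - ((p : ℚ) * t + j) ^ 2 / ((((j - 1 : ℕ)) : ℚ) + 1) ^ 2) := by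
    rw [c1]
    refine ⟨-(t * (p * t + 2 * j)) * ((j : ℚ)⁻¹) ^ 2,
      ((ht.mul (((in_nat p).mul ht).add ((in_nat 2).mul (in_nat j)))).neg).mul (i1.pow 2), ?_⟩
    field_simp
    ring
  have d2 : Dv p 1 (1 - ((p : ℚ) * t + j) ^ 2 / ((((p - j - 1 : ℕ)) : ℚ) + 1) ^ 2) := by
    rw [c2]
    refine ⟨(p - 2 * j - p * t) * (1 + t) * (((p : ℚ) - j)⁻¹) ^ 2, ?_, ?_⟩
    · exact (((((in_nat p).sub ((in_nat 2).mul (in_nat j))).sub ((in_nat p).mul ht))).mul
        (in_one.add ht)).mul (i2.pow 2)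
    · field_simp
      ring
  have d3 : In p (∏ x ∈ ((range (p - 1)).erase (j - 1)).erase (p - j - 1),
      (1 - ((p : ℚ) * t + j) ^ 2 / ((x : ℚ) + 1) ^ 2)) := by
    apply In.prod
    intro i hi
    rw [mem_erase, mem_erase, mem_range] at hi
    have hi' : In p ((((i + 1 : ℕ)) : ℚ)⁻¹) := in_inv (by omega) (by omega)
    have e : (1 - ((p : ℚ) * t + j) ^ 2 / ((i : ℚ) + 1) ^ 2) =
        1 - ((p : ℚ) * t + j) ^ 2 * ((((i + 1 : ℕ)) : ℚ)⁻¹) ^ 2 := by
      push_cast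
      have : (i : ℚ) + 1 ≠ 0 := by positivity
      field_simp
    rw [e]
    exact in_one.sub (((((in_nat p).mul ht).add (in_nat j)).pow 2).mul (hi'.pow 2))
  have := (d1.mul d2).mul_in d3
  rw [mul_assoc] at this
  exact this

lemma sum_zmod (f : ZMod p → ZMod p) : ∑ k ∈ range p, f (k : ZMod p) = ∑ x : ZMod p, f x := by
  obtain ⟨m, rfl⟩ : ∃ m, p = m + 1 := ⟨p - 1, by have := hp.out.pos; omega⟩
  rw [← Fin.sum_univ_eq_sum_range (fun k => f (k : ZMod (m + 1))) (m + 1)]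
  refine Finset.sum_congr rfl fun x _ => ?_
  exact congrArg f (ZMod.natCast_zmod_val (n := m + 1) x)

lemma sum_inv (hp2 : p ≠ 2) : ∑ x : ZMod p, x⁻¹ = 0 := by
  have h2 : (2 : ZMod p) ≠ 0 := by
    have := natCast_ne (p := p) (n := 2) (by norm_num) (by have := hp.out.two_le; omega)
    exact_mod_cast this
  have h : ∑ x : ZMod p, x⁻¹ = ∑ x : ZMod p, (-x)⁻¹ :=
    (Equiv.sum_comp (Equiv.neg (ZMod p)) (fun x : ZMod p => x⁻¹)).symm
  have h3 : ∑ x : ZMod p, (-x)⁻¹ = -∑ x : ZMod p, x⁻¹ := by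
    rw [← Finset.sum_neg_distrib]
    exact Finset.sum_congr rfl fun x _ => inv_neg
  have h4 : 2 * ∑ x : ZMod p, x⁻¹ = 0 := by
    linear_combination h + h3
  exact (mul_eq_zero.mp h4).resolve_left h2

lemma sum_four {h : ℕ} (hh : p = 2 * h + 1) (hh0 : 1 ≤ h) :
    ∑ k ∈ (range (p - 1)).erase (h - 1), (((k + 1 : ℕ) : ZMod p)⁻¹ - 2 * (2 * ((k + 1 : ℕ) : ZMod p) + 1)⁻¹) = 4 := by
  have hp2 : p ≠ 2 := by omega
  have h2 : (2 : ZMod p) ≠ 0 := by
    have := natCast_ne (p := p) (n := 2) (by norm_num) (by omega)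
    exact_mod_cast this
  set g : ZMod p → ZMod p := fun x => x⁻¹ - 2 * (2 * x + 1)⁻¹ with hg
  have m1 : h - 1 ∈ range (p - 1) := by rw [mem_range]; omega
  have e1 := add_sum_erase (range (p - 1)) (fun k : ℕ => g ((k + 1 : ℕ) : ZMod p)) m1
  have e2 : ∑ k ∈ range p, g (k : ZMod p) = ∑ k ∈ range (p - 1), g ((k + 1 : ℕ) : ZMod p) + g 0 := by
    obtain ⟨q, hq⟩ : ∃ q, p = q + 1 := ⟨p - 1, by omega⟩
    have e3 := Finset.sum_range_succ' (fun k : ℕ => g (k : ZMod p)) (p - 1)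
    rw [show p - 1 + 1 = p by omega] at e3
    rw [e3]
    simp
  rw [sum_zmod g] at e2
  have e4 : ∑ x : ZMod p, g x = 0 := by
    rw [hg]
    simp only
    rw [Finset.sum_sub_distrib, sum_inv hp2, ← Finset.mul_sum]
    have : ∑ x : ZMod p, (2 * x + 1)⁻¹ = ∑ x : ZMod p, x⁻¹ := by
      have := Equiv.sum_comp ((Equiv.mulLeft₀ (2 : ZMod p) h2).trans (Equiv.addRight (1 : ZMod p))) (fun x : ZMod p => x⁻¹)
      exact this
    rw [this, sum_inv hp2]
    ring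
  have h2n : 2 * (h : ZMod p) + 1 = 0 := by
    have : ((2 * h + 1 : ℕ) : ZMod p) = 0 := by rw [← hh]; exact ZMod.natCast_self p
    push_cast at this
    exact this
  have e5 : g ((h - 1 + 1 : ℕ) : ZMod p) = -2 := by
    rw [show h - 1 + 1 = h by omega, hg]
    simp only
    rw [h2n]
    have hne : (h : ZMod p) ≠ 0 := natCast_ne (by omega) (by omega)
    rw [inv_zero, mul_zero, sub_zero]
    rw [inv_eq_iff_eq_inv]
    exact eq_inv_of_mul_eq_one_left (by linear_combination -h2n)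
  have e6 : g 0 = -2 := by
    rw [hg]
    simp
  change ∑ k ∈ (range (p - 1)).erase (h - 1), g ((k + 1 : ℕ) : ZMod p) = 4
  rw [e4, e6] at e2
  rw [e5] at e1
  linear_combination e1 - e2

/-- `F(pt,p) ≡ 1+2t (mod p²)` -/
lemma F_base {h : ℕ} (hh : p = 2 * h + 1) (hh0 : 1 ≤ h) {t : ℚ} (ht : In p t) :
    Dv p 2 (F (p * t) p - (1 + 2 * t)) := by
  have m1 : h - 1 ∈ range (p - 1) := by rw [mem_range]; omega
  have hS : ∑ k ∈ range p, w (p * t) k / (2 * (k : ℚ) + 1) =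
      1 + (w (p * t) (h - 1 + 1) / (2 * ((h - 1 + 1 : ℕ) : ℚ) + 1) +
        ∑ k ∈ (range (p - 1)).erase (h - 1), w (p * t) (k + 1) / (2 * ((k + 1 : ℕ) : ℚ) + 1)) := by
    rw [add_sum_erase (range (p - 1)) (fun k : ℕ => w (p * t) (k + 1) / (2 * ((k + 1 : ℕ) : ℚ) + 1)) m1]
    have e3 := Finset.sum_range_succ' (fun k : ℕ => w (p * t) k / (2 * (k : ℚ) + 1)) (p - 1)
    rw [show p - 1 + 1 = p by omega] at e3
    rw [e3]
    simp [w]
    ring
  have hpq : (p : ℚ) = 2 * h + 1 := by exact_mod_cast hh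
  have hhq : (h : ℚ) ≠ 0 := by
    have : 0 < h := hh0
    positivity
  have hp0 : (p : ℚ) ≠ 0 := by rw [hpq]; positivity
  -- special term
  have ih : In p ((h : ℚ)⁻¹) := in_inv (by omega) (by omega)
  have sp : Dv p 2 (w (p * t) (h - 1 + 1) / (2 * ((h - 1 + 1 : ℕ) : ℚ) + 1) -
      (-t * (h : ℚ)⁻¹ - p * t ^ 2 * ((h : ℚ)⁻¹) ^ 2)) := by
    rw [w_P]
    have hd := P_one ht (h - 1) (by omega)
    have hi : In p (-(t * (p * t + h) * ((h : ℚ)⁻¹) ^ 2)) :=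
      ((ht.mul (((in_nat p).mul ht).add (in_nat h))).mul (ih.pow 2)).neg
    have := hd.in_mul hi
    have e : (((h - 1 : ℕ)) : ℚ) + 1 = h := by rw [Nat.cast_sub hh0]; push_cast; ring
    rw [show h - 1 + 1 = h by omega, ← hpq]
    have e2 : -((p : ℚ) * t) * (p * t + ((h - 1 : ℕ) : ℚ) + 1) / ((((h - 1 : ℕ)) : ℚ) + 1) ^ 2 * P (p * t) (h - 1) / p
        - (-t * (h : ℚ)⁻¹ - p * t ^ 2 * ((h : ℚ)⁻¹) ^ 2) =
        -(t * (p * t + h) * ((h : ℚ)⁻¹) ^ 2) * (P (p * t) (h - 1) - 1) := by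
      rw [add_assoc ((p : ℚ) * t), e]
      field_simp
      ring
    rw [e2]
    exact this
  -- generic terms
  have gen : Dv p 2 (∑ k ∈ (range (p - 1)).erase (h - 1), w (p * t) (k + 1) / (2 * ((k + 1 : ℕ) : ℚ) + 1) -
      -(p * t) * 4) := by
    have g1 : Dv p 2 (∑ k ∈ (range (p - 1)).erase (h - 1), (w (p * t) (k + 1) / (2 * ((k + 1 : ℕ) : ℚ) + 1) -
        -(p * t) * ((((k + 1 : ℕ) : ℚ)⁻¹ - 2 * (2 * ((k + 1 : ℕ) : ℚ) + 1)⁻¹)))) := by
      apply Dv.sum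
      intro k hk
      rw [mem_erase, mem_range] at hk
      rw [w_P]
      obtain ⟨u, hu, hx⟩ := P_one ht k (by omega)
      have hP : P (p * t) k = 1 + p ^ 2 * u := by linear_combination hx
      have i1 : In p ((((k + 1 : ℕ)) : ℚ)⁻¹) := in_inv (by omega) (by omega)
      have i2 : In p ((2 * ((k + 1 : ℕ) : ℚ) + 1)⁻¹) := by
        have hne : (((2 * (k + 1) + 1 : ℕ)) : ZMod p) ≠ 0 := by
          intro h0
          obtain ⟨c, hc⟩ := (ZMod.natCast_eq_zero_iff _ p).mp h0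
          have hc2 : c < 2 := by
            by_contra hge
            have : 2 ≤ c := by omega
            have : p * 2 ≤ p * c := Nat.mul_le_mul_left p this
            omega
          interval_cases c
          · omega
          · omega
        have := in_inv_nat hne
        push_cast at this ⊢
        exact this
      have hP2 := hP
      rw [hP]
      refine ⟨-(t * ((((k + 1 : ℕ)) : ℚ)⁻¹) ^ 2 * (2 * ((k + 1 : ℕ) : ℚ) + 1)⁻¹ * (t + u * p * (p * t + (k + 1 : ℕ)))), ?_, ?_⟩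
      · exact (((ht.mul (i1.pow 2)).mul i2).mul (ht.add ((hu.mul (in_nat p)).mul
          (((in_nat p).mul ht).add (in_nat (k + 1)))))).neg
      · push_cast
        have n1 : (k : ℚ) + 1 ≠ 0 := by positivity
        have n2 : 2 * ((k : ℚ) + 1) + 1 ≠ 0 := by positivity
        field_simp
        ring
    rw [Finset.sum_sub_distrib, ← Finset.mul_sum] at g1
    have g2 : Ok p (∑ k ∈ (range (p - 1)).erase (h - 1), ((((k + 1 : ℕ) : ℚ)⁻¹ - 2 * (2 * ((k + 1 : ℕ) : ℚ) + 1)⁻¹))) 4 := by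
      rw [← sum_four hh hh0]
      apply Ok.sum
      intro k hk
      rw [mem_erase, mem_range] at hk
      have hne : (((2 * (k + 1) + 1 : ℕ)) : ZMod p) ≠ 0 := by
        intro h0
        obtain ⟨c, hc⟩ := (ZMod.natCast_eq_zero_iff _ p).mp h0
        have hc2 : c < 2 := by
          by_contra hge
          have : 2 ≤ c := by omega
          have : p * 2 ≤ p * c := Nat.mul_le_mul_left p this
          omega
        interval_cases c
        · omega
        · omega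
      have o1 : Ok p ((((k + 1 : ℕ)) : ℚ)⁻¹) (((k + 1 : ℕ) : ZMod p)⁻¹) :=
        (ok_nat (k + 1)).inv (natCast_ne (by omega) (by omega))
      have o2 : Ok p ((((2 * (k + 1) + 1 : ℕ)) : ℚ)⁻¹) ((((2 * (k + 1) + 1 : ℕ)) : ZMod p)⁻¹) :=
        (ok_nat (2 * (k + 1) + 1)).inv hne
      have o3 := o1.sub ((ok_nat (p := p) 2).mul o2)
      push_cast at o3 ⊢
      exact o3
    have g3 : Dv p 1 (∑ k ∈ (range (p - 1)).erase (h - 1), ((((k + 1 : ℕ) : ℚ)⁻¹ - 2 * (2 * ((k + 1 : ℕ) : ℚ) + 1)⁻¹)) - 4) := by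
      apply Ok.dv
      have := g2.sub (ok_nat (p := p) 4)
      simpa using this
    have g4 : Dv p (1 + 1) (-(p * t) * (∑ k ∈ (range (p - 1)).erase (h - 1), ((((k + 1 : ℕ) : ℚ)⁻¹ - 2 * (2 * ((k + 1 : ℕ) : ℚ) + 1)⁻¹)) - 4)) := by
      apply Dv.mul _ g3
      exact ⟨-t, ht.neg, by ring⟩
    have := g1.add g4
    have e : ∀ A B : ℚ, A - -(p * t) * 4 = (A - -(p * t) * B) + -(p * t) * (B - 4) := by intro A B; ring
    rw [e]
    exact this
  -- the inverse of h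
  have hinv : Dv p 2 ((h : ℚ)⁻¹ + 2 * (1 + p)) := by
    refine ⟨2 * (2 * (h : ℚ))⁻¹, ?_, ?_⟩
    · have : In p ((((2 * h : ℕ)) : ℚ)⁻¹) := in_inv (by omega) (by omega)
      push_cast at this
      exact (in_nat 2).mul this
    · have : (h : ℚ) = (p - 1) / 2 := by rw [hpq]; ring
      have h1 : (p : ℚ) - 1 ≠ 0 := by rw [hpq]; intro h0; apply hhq; linarith
      rw [this]
      field_simp
      ring
  have hinv2 : Dv p 2 (p * (((h : ℚ)⁻¹) ^ 2 - 4)) := by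
    refine ⟨((h : ℚ)⁻¹ - 2) * (h : ℚ)⁻¹, (ih.sub (in_nat 2)).mul ih, ?_⟩
    rw [hpq]
    field_simp
    ring
  have hSd : Dv p 2 (∑ k ∈ range p, w (p * t) k / (2 * (k : ℚ) + 1) -
      (1 - 4 * p * t + 2 * t * (1 + p) - 4 * p * t ^ 2)) := by
    rw [hS]
    have := ((sp.add gen).sub (hinv.in_mul ht)).sub (hinv2.in_mul (ht.pow 2))
    have e : (1 + (w (p * t) (h - 1 + 1) / (2 * ((h - 1 + 1 : ℕ) : ℚ) + 1) +
        ∑ k ∈ (range (p - 1)).erase (h - 1), w (p * t) (k + 1) / (2 * ((k + 1 : ℕ) : ℚ) + 1))) -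
        (1 - 4 * p * t + 2 * t * (1 + p) - 4 * p * t ^ 2) =
        (w (p * t) (h - 1 + 1) / (2 * ((h - 1 + 1 : ℕ) : ℚ) + 1) -
      (-t * (h : ℚ)⁻¹ - p * t ^ 2 * ((h : ℚ)⁻¹) ^ 2)) +
      (∑ k ∈ (range (p - 1)).erase (h - 1), w (p * t) (k + 1) / (2 * ((k + 1 : ℕ) : ℚ) + 1) -
      -(p * t) * 4) - t * ((h : ℚ)⁻¹ + 2 * (1 + p)) - t ^ 2 * (p * (((h : ℚ)⁻¹) ^ 2 - 4)) := by ring
    rw [e]
    exact this
  unfold F
  have hc : In p (2 * (p * t) + 1) := ((in_nat 2).mul ((in_nat p).mul ht)).add in_one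
  have h3 := hSd.in_mul hc
  have h4 : Dv p 2 (-(4 * (p : ℚ) ^ 2 * t ^ 2 * (1 + 2 * t))) :=
    ⟨-(4 * t ^ 2 * (1 + 2 * t)), (((in_nat 4).mul (ht.pow 2)).mul (in_one.add ((in_nat 2).mul ht))).neg, by ring⟩
  have := h3.add h4
  have e : ∀ S : ℚ, (2 * (p * t) + 1) * S - (1 + 2 * t) = (2 * (p * t) + 1) * (S -
      (1 - 4 * p * t + 2 * t * (1 + p) - 4 * p * t ^ 2)) + -(4 * (p : ℚ) ^ 2 * t ^ 2 * (1 + 2 * t)) := by
    intro S; ring
  rw [e]
  exact this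

end Pool.Agent.V11304.CT
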