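import Pool.Agent.V11304.PI.Basic

/-!
# Telescoping in the parameter for `(-a)_k (a+1)_k / k!^2`
-/

set_option autoImplicit false

namespace Pool.Agent.V11304.CT

open Finset Pool.Agent.V11304.PI

/-- `(-a)_k (a+1)_k / k!^2` -/
def w (a : ℚ) : ℕ → ℚ
  | 0 => 1
  | k + 1 => w a k * (((k : ℚ) - a) * (k + a + 1) / (k + 1) ^ 2)

/-- `∏_{i=1}^k (1 - a²/i²)` -/
def P (a : ℚ) (k : ℕ) : ℚ := ∏ i ∈ range k, (1 - a ^ 2 / ((i : ℚ) + 1) ^ 2)

lemma P_succ (a : ℚ) (k : ℕ) : P a (k + 1) = P a k * (1 - a ^ 2 / ((k : ℚ) + 1) ^ 2) := by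
  unfold P; rw [prod_range_succ]

lemma w_P (a : ℚ) (k : ℕ) : w a (k + 1) = -a * (a + k + 1) / ((k : ℚ) + 1) ^ 2 * P a k := by
  induction k with
  | zero => simp [w, P]
  | succ k ih =>
    rw [w, ih, P_succ]
    have h1 : (k : ℚ) + 1 ≠ 0 := by positivity
    have h2 : (k : ℚ) + 1 + 1 ≠ 0 := by positivity
    push_cast
    field_simp
    ring

lemma w_P' (a : ℚ) (k : ℕ) : w (a - 1) (k + 1) = a * ((k : ℚ) + 1 - a) / ((k : ℚ) + 1) ^ 2 * P a k := by
  induction k with
  | zero => simp [w, P]; ring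
  | succ k ih =>
    rw [w, ih, P_succ]
    have h1 : (k : ℚ) + 1 ≠ 0 := by positivity
    have h2 : (k : ℚ) + 1 + 1 ≠ 0 := by positivity
    push_cast
    field_simp
    ring

/-- `(2a+1) ∑_{k<N} w(a,k)/(2k+1)` -/
def F (a : ℚ) (N : ℕ) : ℚ := (2 * a + 1) * ∑ k ∈ range N, w a k / (2 * (k : ℚ) + 1)

lemma F_diff (a : ℚ) (N : ℕ) : F a (N + 1) - F (a - 1) (N + 1) = 2 * P a N := by
  induction N with
  | zero => simp [F, w, P]; ring
  | succ N ih =>
    have e1 : F a (N + 1 + 1) = F a (N + 1) + (2 * a + 1) * (w a (N + 1) / (2 * ((N + 1 : ℕ) : ℚ) + 1)) := by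
      unfold F; rw [sum_range_succ _ (N + 1)]; ring
    have e2 : F (a - 1) (N + 1 + 1) = F (a - 1) (N + 1) +
        (2 * (a - 1) + 1) * (w (a - 1) (N + 1) / (2 * ((N + 1 : ℕ) : ℚ) + 1)) := by
      unfold F; rw [sum_range_succ _ (N + 1)]; ring
    rw [e1, e2, w_P, w_P', P_succ]
    have h1 : (N : ℚ) + 1 ≠ 0 := by positivity
    have h2 : 2 * ((N : ℚ) + 1) + 1 ≠ 0 := by positivity
    have : F a (N + 1) = F (a - 1) (N + 1) + 2 * P a N := by linear_combination ih
    rw [this]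
    push_cast
    field_simp
    ring

lemma F_sum (a : ℚ) (n N : ℕ) : F (a + n) (N + 1) = F a (N + 1) +
    ∑ j ∈ range n, 2 * P (a + (j + 1 : ℕ)) N := by
  induction n with
  | zero => simp
  | succ n ih =>
    rw [sum_range_succ, ← add_assoc, ← ih]
    have := F_diff (a + ((n + 1 : ℕ) : ℚ)) N
    rw [show a + ((n + 1 : ℕ) : ℚ) - 1 = a + n by push_cast; ring] at this
    linear_combination this

/-- `∑_{k<N} w/(k+1)`, telescoping. -/
lemma sum_one (a : ℚ) (N : ℕ) :
    a * (a + 1) * ∑ k ∈ range N, w a k / ((k : ℚ) + 1) = -(N * w a N) := by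
  induction N with
  | zero => simp
  | succ N ih =>
    rw [sum_range_succ, mul_add, ih, w]
    have h1 : (N : ℚ) + 1 ≠ 0 := by positivity
    push_cast
    field_simp
    ring

/-- `∑_{k<N} w/(k+1)²`, telescoping. -/
lemma sum_two (a : ℚ) (N : ℕ) :
    (a * (a + 1)) ^ 2 * ∑ k ∈ range N, w a k / ((k : ℚ) + 1) ^ 2 =
      a * (a + 1) * (1 - w a N) + N * w a N := by
  induction N with
  | zero => simp [w]
  | succ N ih =>
    rw [sum_range_succ, mul_add, ih, w]
    have h1 : (N : ℚ) + 1 ≠ 0 := by positivity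
    push_cast
    field_simp
    ring

lemma w_third (k : ℕ) : w (-1 / 3) k =
    (((2 * k).choose k : ℕ) : ℚ) * (((3 * k).choose k : ℕ) : ℚ) / 27 ^ k := by
  have hk : ∀ k : ℕ, (((2 * k).choose k : ℕ) : ℚ) * (((3 * k).choose k : ℕ) : ℚ) =
      ((3 * k).factorial : ℚ) / (k.factorial : ℚ) ^ 3 := by
    intro k
    have h1 := Nat.choose_mul_factorial_mul_factorial (show k ≤ 2 * k by omega)
    have h2 := Nat.choose_mul_factorial_mul_factorial (show k ≤ 3 * k by omega)
    rw [show 2 * k - k = k by omega] at h1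
    rw [show 3 * k - k = 2 * k by omega] at h2
    have f1 : (k.factorial : ℚ) ≠ 0 := by positivity
    have f2 : ((2 * k).factorial : ℚ) ≠ 0 := by positivity
    rw [eq_div_iff (pow_ne_zero 3 f1)]
    have h1' : (((2 * k).choose k : ℕ) : ℚ) * k.factorial * k.factorial = (2 * k).factorial := by
      exact_mod_cast h1
    have h2' : (((3 * k).choose k : ℕ) : ℚ) * k.factorial * (2 * k).factorial = (3 * k).factorial := by
      exact_mod_cast h2
    rw [← h2', ← h1']
    ring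
  induction k with
  | zero => simp [w]
  | succ k ih =>
    rw [w, ih, hk, hk]
    have h3 : ((3 * (k + 1)).factorial : ℚ) = ((3 * k).factorial : ℚ) * ((3 * k + 1) * (3 * k + 2) *
        (3 * k + 3)) := by
      rw [show 3 * (k + 1) = 3 * k + 1 + 1 + 1 by ring]
      simp only [Nat.factorial_succ]
      push_cast
      ring
    have h1 : ((k + 1).factorial : ℚ) = (k.factorial : ℚ) * (k + 1) := by
      rw [Nat.factorial_succ]
      push_cast
      ring
    rw [h3, h1, pow_succ]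
    have f1 : (k.factorial : ℚ) ≠ 0 := by positivity
    have g1 : (k : ℚ) + 1 ≠ 0 := by positivity
    field_simp
    ring

end Pool.Agent.V11304.CT
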